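import Mathlib

set_option autoImplicit false

/-! Problem MP_6b7d8e_lc, question Q1: there is an admissible function `K(x | y)` which is not the
complexity function of any prefix-free or prefix-stable conditional algorithm. Both (a) and (b)
have a negative answer. -/

namespace Pool.Agent.Results.MP_6b7d8e_lc.NotRealisable

open Nat.Partrec (Code)
open Nat.Partrec.Code

/-- Binary strings. -/
abbrev Str : Type := List Bool

/-- A conditional algorithm: a partial computable function `U p y` of two strings, the program `p`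
and the condition `y`. -/
def IsAlgorithm (U : Str → Str → Part Str) : Prop := Partrec (fun a : Str × Str => U a.1 a.2)

/-- `U` is prefix-free: for every `y`, two comparable different programs are not both in the
domain of `U`. -/
def PrefixFree (U : Str → Str → Part Str) : Prop :=
  ∀ y p p' : Str, p <+: p' → p ≠ p' → ¬ ((U p y).Dom ∧ (U p' y).Dom)

/-- `U` is prefix-stable: if `U p y = x`, then `U p' y = x` for every extension `p'` of `p`. -/
def PrefixStable (U : Str → Str → Part Str) : Prop :=
  ∀ y p p' x : Str, p <+: p' → x ∈ U p y → x ∈ U p' y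

/-- `K` is the complexity function of `U`: `K x y` is the minimum of the lengths of the programs
`p` with `U p y = x`. -/
def IsComplexityOf (K : Str → Str → ℕ) (U : Str → Str → Part Str) : Prop :=
  ∀ x y : Str, IsLeast {n : ℕ | ∃ p : Str, x ∈ U p y ∧ p.length = n} (K x y)

/-- `K` is upper semicomputable: it is the limit of a uniformly computable sequence of functions
which is non-increasing. -/
def UpperSemicomputable (K : Str → Str → ℕ) : Prop :=
  ∃ F : ℕ → Str → Str → ℕ, Computable (fun a : ℕ × (Str × Str) => F a.1 a.2.1 a.2.2) ∧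
    (∀ n x y, F (n + 1) x y ≤ F n x y) ∧ ∀ x y, ∃ n, ∀ m, n ≤ m → F m x y = K x y

/-- `K` is admissible: it is upper semicomputable, and for every `y` the sum of `2 ^ (- K x y)` over
all strings `x` is at most one (every finite partial sum is at most one). -/
def Admissible (K : Str → Str → ℕ) : Prop :=
  UpperSemicomputable K ∧ ∀ (y : Str) (T : Finset Str), ∑ x ∈ T, (1 / 2 : ℝ) ^ K x y ≤ 1

/-- the three special strings -/
def x1 : Str := []
def x2 : Str := [false]
def x3 : Str := [true]

/-- the code with index the length of the condition converges in `s` steps to `x` -/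
def Tst (s : ℕ) (y p x : Str) : Prop :=
  evaln s (Denumerable.ofNat Code y.length) (Encodable.encode (p, y)) = some (Encodable.encode x)

instance (s : ℕ) (y p x : Str) : Decidable (Tst s y p x) := by unfold Tst; infer_instance

lemma Tst_p : PrimrecPred (fun q : (ℕ × Str) × (Str × Str) => Tst q.1.1 q.1.2 q.2.1 q.2.2) := by
  have h1 : Primrec (fun q : (ℕ × Str) × (Str × Str) =>
      evaln q.1.1 (Denumerable.ofNat Code q.1.2.length) (Encodable.encode (q.2.1, q.1.2))) :=
    primrec_evaln.comp
      (((Primrec.fst.comp Primrec.fst).pair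
        ((Primrec.ofNat Code).comp (Primrec.list_length.comp (Primrec.snd.comp Primrec.fst)))).pair
        (Primrec.encode.comp ((Primrec.fst.comp Primrec.snd).pair
          (Primrec.snd.comp Primrec.fst))))
  have h2 : Primrec (fun q : (ℕ × Str) × (Str × Str) => some (Encodable.encode q.2.2)) :=
    Primrec.option_some.comp (Primrec.encode.comp (Primrec.snd.comp Primrec.snd))
  exact Primrec.eq.comp h1 h2

lemma Tst_mono {s t : ℕ} (h : s ≤ t) {y p x : Str} (hs : Tst s y p x) : Tst t y p x := by
  unfold Tst at *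
  have := evaln_mono h (show Encodable.encode x ∈ evaln s _ _ from hs)
  exact this

/-- the triples of programs of lengths 2, 2, 3 -/
def P2 : List Str := [[false, false], [false, true], [true, false], [true, true]]
def P3 : List Str := P2.flatMap (fun p => [p ++ [false], p ++ [true]])
def triples : List (Str × (Str × Str)) :=
  P2.flatMap (fun p => P2.flatMap (fun p' => P3.map (fun p'' => (p, (p', p'')))))

lemma mem_triples {p p' p'' : Str} (h : p.length = 2) (h' : p'.length = 2) (h'' : p''.length = 3) :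
    (p, (p', p'')) ∈ triples := by
  have e2 : ∀ q : Str, q.length = 2 → q ∈ P2 := by
    intro q hq
    match q, hq with
    | [a, b], _ => cases a <;> cases b <;> decide
  have e3 : ∀ q : Str, q.length = 3 → q ∈ P3 := by
    intro q hq
    match q, hq with
    | [a, b, c], _ => cases a <;> cases b <;> cases c <;> decide
  unfold triples
  rw [List.mem_flatMap]
  refine ⟨p, e2 p h, ?_⟩
  rw [List.mem_flatMap]
  refine ⟨p', e2 p' h', ?_⟩
  rw [List.mem_map]
  exact ⟨p'', e3 p'' h'', rfl⟩

lemma of_mem_triples {t : Str × (Str × Str)} (h : t ∈ triples) :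
    t.1.length = 2 ∧ t.2.1.length = 2 ∧ t.2.2.length = 3 := by
  have e2 : ∀ q ∈ P2, q.length = 2 := by decide
  have e3 : ∀ q ∈ P3, q.length = 3 := by decide
  unfold triples at h
  rw [List.mem_flatMap] at h
  obtain ⟨p, hp, h⟩ := h
  rw [List.mem_flatMap] at h
  obtain ⟨p', hp', h⟩ := h
  rw [List.mem_map] at h
  obtain ⟨p'', hp'', rfl⟩ := h
  exact ⟨e2 p hp, e2 p' hp', e3 p'' hp''⟩

/-- a triple of programs for the three strings has been found -/
def Trig (s : ℕ) (y : Str) : Prop :=
  ∃ t ∈ triples, (Tst s y t.1 x1 ∧ Tst s y t.2.1 x2) ∧ Tst s y t.2.2 x3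

/-- a triple such that the first and the third program are in the same half -/
def Trig' (s : ℕ) (y : Str) : Prop :=
  ∃ t ∈ triples, ((Tst s y t.1 x1 ∧ Tst s y t.2.1 x2) ∧ Tst s y t.2.2 x3) ∧ t.1.head? = t.2.2.head?

lemma Trig_p : PrimrecPred (fun q : ℕ × Str => Trig q.1 q.2) := by
  have h1 : PrimrecRel (fun (t : Str × (Str × Str)) (q : ℕ × Str) =>
      (Tst q.1 q.2 t.1 x1 ∧ Tst q.1 q.2 t.2.1 x2) ∧ Tst q.1 q.2 t.2.2 x3) := by
    have t : ∀ (f : Str × (Str × Str) → Str) (_ : Primrec f) (x : Str),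
        PrimrecPred (fun z : (Str × (Str × Str)) × (ℕ × Str) => Tst z.2.1 z.2.2 (f z.1) x) := by
      intro f hf x
      exact Tst_p.comp (Primrec.snd.pair ((hf.comp Primrec.fst).pair (Primrec.const x)))
    exact PrimrecPred.and (PrimrecPred.and (t _ Primrec.fst x1)
      (t _ (Primrec.fst.comp Primrec.snd) x2)) (t _ (Primrec.snd.comp Primrec.snd) x3)
  exact h1.exists_mem_list.comp (Primrec.const triples) Primrec.id

lemma Trig'_p : PrimrecPred (fun q : ℕ × Str => Trig' q.1 q.2) := by
  have h1 : PrimrecRel (fun (t : Str × (Str × Str)) (q : ℕ × Str) =>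
      ((Tst q.1 q.2 t.1 x1 ∧ Tst q.1 q.2 t.2.1 x2) ∧ Tst q.1 q.2 t.2.2 x3) ∧
        t.1.head? = t.2.2.head?) := by
    have t : ∀ (f : Str × (Str × Str) → Str) (_ : Primrec f) (x : Str),
        PrimrecPred (fun z : (Str × (Str × Str)) × (ℕ × Str) => Tst z.2.1 z.2.2 (f z.1) x) := by
      intro f hf x
      exact Tst_p.comp (Primrec.snd.pair ((hf.comp Primrec.fst).pair (Primrec.const x)))
    refine PrimrecPred.and (PrimrecPred.and (PrimrecPred.and (t _ Primrec.fst x1)
      (t _ (Primrec.fst.comp Primrec.snd) x2)) (t _ (Primrec.snd.comp Primrec.snd) x3)) ?_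
    exact Primrec.eq.comp (Primrec.list_head?.comp (Primrec.fst.comp Primrec.fst))
      (Primrec.list_head?.comp (Primrec.snd.comp (Primrec.snd.comp Primrec.fst)))
  exact h1.exists_mem_list.comp (Primrec.const triples) Primrec.id

lemma Trig_mono {s t : ℕ} (h : s ≤ t) {y : Str} (hs : Trig s y) : Trig t y := by
  obtain ⟨q, hq, ⟨h1, h2⟩, h3⟩ := hs
  exact ⟨q, hq, ⟨Tst_mono h h1, Tst_mono h h2⟩, Tst_mono h h3⟩

lemma Trig_zero (y : Str) : ¬ Trig 0 y := by
  rintro ⟨t, -, ⟨h1, -⟩, -⟩
  unfold Tst at h1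
  simp [evaln] at h1

/-- `s + 1` is the first stage of a triple, and the first string is chosen -/
def Ch1 (y : Str) (s : ℕ) : Prop := (Trig (s + 1) y ∧ ¬ Trig s y) ∧ Trig' (s + 1) y
/-- `s + 1` is the first stage of a triple, and the second string is chosen -/
def Ch2 (y : Str) (s : ℕ) : Prop := (Trig (s + 1) y ∧ ¬ Trig s y) ∧ ¬ Trig' (s + 1) y

lemma Ch_unique {y : Str} {s t : ℕ} (h1 : Ch1 y s) (h2 : Ch2 y t) : False := by
  rcases lt_trichotomy s t with h | h | h
  · exact h2.1.2 (Trig_mono h h1.1.1)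
  · subst h
    exact h2.2 h1.2
  · exact h1.1.2 (Trig_mono h h2.1.1)

open Classical in
/-- the approximations -/
noncomputable def F (n : ℕ) (x y : Str) : ℕ :=
  if x = x1 then (if ∃ s ∈ List.range n, Ch1 y s then 1 else 2)
  else if x = x2 then (if ∃ s ∈ List.range n, Ch2 y s then 1 else 2)
  else if x = x3 then 3
  else Encodable.encode x + 4

open Classical in
/-- the function -/
noncomputable def K (x y : Str) : ℕ :=
  if x = x1 then (if ∃ s, Ch1 y s then 1 else 2)
  else if x = x2 then (if ∃ s, Ch2 y s then 1 else 2)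
  else if x = x3 then 3
  else Encodable.encode x + 4

lemma F_computable : Computable (fun a : ℕ × (Str × Str) => F a.1 a.2.1 a.2.2) := by
  classical
  apply Primrec.to_comp
  have hs : ∀ (Q : ℕ × Str → Prop), PrimrecPred Q →
      PrimrecRel (fun (s : ℕ) (y : Str) => Q (s, y)) := fun Q hQ => hQ
  have t0 : PrimrecRel (fun (s : ℕ) (y : Str) => Trig s y) := Trig_p
  have t1 : PrimrecRel (fun (s : ℕ) (y : Str) => Trig (s + 1) y) :=
    Trig_p.comp ((Primrec.succ.comp Primrec.fst).pair Primrec.snd)
  have t2 : PrimrecRel (fun (s : ℕ) (y : Str) => Trig' (s + 1) y) :=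
    Trig'_p.comp ((Primrec.succ.comp Primrec.fst).pair Primrec.snd)
  have c1 : PrimrecRel (fun (s : ℕ) (y : Str) => Ch1 y s) :=
    PrimrecPred.and (PrimrecPred.and t1 (PrimrecPred.not t0)) t2
  have c2 : PrimrecRel (fun (s : ℕ) (y : Str) => Ch2 y s) :=
    PrimrecPred.and (PrimrecPred.and t1 (PrimrecPred.not t0)) (PrimrecPred.not t2)
  have n : Primrec (fun a : ℕ × (Str × Str) => a.1) := Primrec.fst
  have x : Primrec (fun a : ℕ × (Str × Str) => a.2.1) := Primrec.fst.comp Primrec.snd
  have y : Primrec (fun a : ℕ × (Str × Str) => a.2.2) := Primrec.snd.comp Primrec.snd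
  have d1 : PrimrecPred (fun a : ℕ × (Str × Str) => ∃ s ∈ List.range a.1, Ch1 a.2.2 s) :=
    c1.exists_mem_list.comp (Primrec.list_range.comp n) y
  have d2 : PrimrecPred (fun a : ℕ × (Str × Str) => ∃ s ∈ List.range a.1, Ch2 a.2.2 s) :=
    c2.exists_mem_list.comp (Primrec.list_range.comp n) y
  unfold F
  refine Primrec.ite (Primrec.eq.comp x (Primrec.const x1))
    (Primrec.ite d1 (Primrec.const 1) (Primrec.const 2)) ?_
  refine Primrec.ite (Primrec.eq.comp x (Primrec.const x2))
    (Primrec.ite d2 (Primrec.const 1) (Primrec.const 2)) ?_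
  refine Primrec.ite (Primrec.eq.comp x (Primrec.const x3)) (Primrec.const 3) ?_
  exact Primrec.nat_add.comp (Primrec.encode.comp x) (Primrec.const 4)

lemma F_anti (n : ℕ) (x y : Str) : F (n + 1) x y ≤ F n x y := by
  classical
  have key : ∀ (P : ℕ → Prop), (if ∃ s ∈ List.range (n + 1), P s then 1 else 2) ≤
      (if ∃ s ∈ List.range n, P s then 1 else 2) := by
    intro P
    by_cases h : ∃ s ∈ List.range n, P s
    · obtain ⟨s, hs, hP⟩ := h
      have h' : ∃ s ∈ List.range (n + 1), P s := by
        refine ⟨s, ?_, hP⟩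
        rw [List.mem_range] at hs ⊢
        omega
      rw [if_pos h', if_pos ⟨s, hs, hP⟩]
    · rw [if_neg h]
      split_ifs <;> omega
  unfold F
  split_ifs
  all_goals first
    | exact le_refl _
    | omega
    | (exfalso; rename_i h1 h2; obtain ⟨s, hs, hP⟩ := h2; exact h1 ⟨s, by
        rw [List.mem_range] at hs ⊢; omega, hP⟩)

lemma F_lim (x y : Str) : ∃ n, ∀ m, n ≤ m → F m x y = K x y := by
  classical
  have key : ∀ (P : ℕ → Prop), ∃ n, ∀ m, n ≤ m → ((if ∃ s ∈ List.range m, P s then 1 else 2) : ℕ) =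
      (if ∃ s, P s then 1 else 2) := by
    intro P
    by_cases h : ∃ s, P s
    · obtain ⟨s, hs⟩ := h
      refine ⟨s + 1, fun m hm => ?_⟩
      rw [if_pos ⟨s, List.mem_range.2 (by omega), hs⟩, if_pos ⟨s, hs⟩]
    · refine ⟨0, fun m _ => ?_⟩
      rw [if_neg h, if_neg]
      rintro ⟨s, -, hs⟩
      exact h ⟨s, hs⟩
  unfold F K
  by_cases e1 : x = x1
  · simp only [e1, if_true]
    exact key _
  · by_cases e2 : x = x2
    · have : x2 ≠ x1 := by decide
      simp only [e2, if_true, this, if_false]
      exact key _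
    · refine ⟨0, fun m _ => ?_⟩
      rw [if_neg e1, if_neg e1, if_neg e2, if_neg e2]

/-- the sum condition -/
lemma K_sum (y : Str) (T : Finset Str) : ∑ x ∈ T, (1 / 2 : ℝ) ^ K x y ≤ 1 := by
  classical
  have h12 : x1 ≠ x2 := by decide
  have h13 : x1 ≠ x3 := by decide
  have h23 : x2 ≠ x3 := by decide
  -- split off the three special strings
  let T' := T \ {x1, x2, x3}
  have hsub : T ⊆ T' ∪ {x1, x2, x3} := by
    intro x hx
    by_cases h : x ∈ ({x1, x2, x3} : Finset Str)
    · exact Finset.mem_union_right _ h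
    · exact Finset.mem_union_left _ (Finset.mem_sdiff.2 ⟨hx, h⟩)
  have h1 : ∑ x ∈ T, (1 / 2 : ℝ) ^ K x y ≤ ∑ x ∈ T' ∪ {x1, x2, x3}, (1 / 2 : ℝ) ^ K x y :=
    Finset.sum_le_sum_of_subset_of_nonneg hsub (fun _ _ _ => by positivity)
  have hdisj : Disjoint T' {x1, x2, x3} := Finset.sdiff_disjoint
  rw [Finset.sum_union hdisj] at h1
  have h2 : ∑ x ∈ T', (1 / 2 : ℝ) ^ K x y ≤ 1 / 8 := by
    have e1 : ∑ x ∈ T', (1 / 2 : ℝ) ^ K x y = ∑ x ∈ T', (1 / 16 : ℝ) * (1 / 2) ^ (Encodable.encode x) := by
      apply Finset.sum_congr rfl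
      intro x hx
      rw [Finset.mem_sdiff] at hx
      have hx' := hx.2
      simp only [Finset.mem_insert, Finset.mem_singleton, not_or] at hx'
      unfold K
      rw [if_neg hx'.1, if_neg hx'.2.1, if_neg hx'.2.2, pow_add]
      ring
    rw [e1, ← Finset.mul_sum]
    have e2 : ∑ x ∈ T', (1 / 2 : ℝ) ^ (Encodable.encode x) ≤ 2 := by
      rw [← Finset.sum_image (f := fun n : ℕ => (1 / 2 : ℝ) ^ n) (g := Encodable.encode)
        (Encodable.encode_injective.injOn)]
      have h3 : (T'.image Encodable.encode) ⊆ Finset.range ((T'.image Encodable.encode).sup id + 1) := by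
        intro n hn
        rw [Finset.mem_range]
        have := Finset.le_sup (f := id) hn
        simp only [id] at this
        omega
      exact le_trans (Finset.sum_le_sum_of_subset_of_nonneg h3 (fun _ _ _ => by positivity))
        (sum_geometric_two_le _)
    linarith
  have h3 : ∑ x ∈ ({x1, x2, x3} : Finset Str), (1 / 2 : ℝ) ^ K x y ≤ 7 / 8 := by
    rw [Finset.sum_insert (by simp [h12, h13]), Finset.sum_insert (by simp [h23]),
      Finset.sum_singleton]
    have k1 : K x1 y = if ∃ s, Ch1 y s then 1 else 2 := by unfold K; rw [if_pos rfl]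
    have k2 : K x2 y = if ∃ s, Ch2 y s then 1 else 2 := by
      unfold K; rw [if_neg h12.symm, if_pos rfl]
    have k3 : K x3 y = 3 := by unfold K; rw [if_neg h13.symm, if_neg h23.symm, if_pos rfl]
    rw [k1, k2, k3]
    by_cases c1 : ∃ s, Ch1 y s
    · have c2 : ¬ ∃ s, Ch2 y s := by
        rintro ⟨t, ht⟩
        obtain ⟨s, hs⟩ := c1
        exact Ch_unique hs ht
      rw [if_pos c1, if_neg c2]
      norm_num
    · rw [if_neg c1]
      split_ifs <;> norm_num
  linarith

lemma K_admissible : Admissible K := ⟨⟨F, F_computable, F_anti, F_lim⟩, K_sum⟩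

/-- the combinatorial heart -/
lemma no_program {H : Str → Str → Prop} (hH : ∀ p p' x x' : Str, p <+: p' → H p x → H p' x' → x = x')
    {p1 p2 p3 : Str} (l1 : p1.length = 2) (l2 : p2.length = 2) (l3 : p3.length = 3)
    (h1 : H p1 x1) (h2 : H p2 x2) (h3 : H p3 x3) {q : Str} (lq : q.length = 1) :
    (p1.head? = p3.head? → ¬ H q x1) ∧ (p1.head? ≠ p3.head? → ¬ H q x2) := by
  have n12 : x1 ≠ x2 := by decide
  have n13 : x1 ≠ x3 := by decide
  have n23 : x2 ≠ x3 := by decide
  match p1, l1, p2, l2, p3, l3, q, lq with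
  | [a, b], _, [c, d], _, [e, f, g], _, [r], _ =>
    constructor
    · intro hh hq
      simp only [List.head?_cons, Option.some.injEq] at hh
      subst hh
      by_cases hr : r = a
      · subst hr
        exact n13 (hH [r] [r, f, g] x1 x3 ⟨[f, g], rfl⟩ hq h3)
      · -- the second program is in the other half
        have hc : c = r := by
          by_contra hcr
          have hca : c = a := by
            revert hr hcr
            cases c <;> cases r <;> cases a <;> decide
          subst hca
          by_cases hbf : f = b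
          · subst hbf
            exact n13 (hH [c, f] [c, f, g] x1 x3 ⟨[g], rfl⟩ h1 h3)
          · by_cases hbd : d = b
            · subst hbd
              exact n12 (hH [c, d] [c, d] x1 x2 (List.prefix_refl _) h1 h2)
            · have hdf : d = f := by
                revert hbf hbd
                cases d <;> cases f <;> cases b <;> decide
              subst hdf
              exact n23 (hH [c, d] [c, d, g] x2 x3 ⟨[g], rfl⟩ h2 h3)
        subst hc
        exact n12 (hH [c] [c, d] x1 x2 ⟨[d], rfl⟩ hq h2)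
    · intro hh hq
      have hh' : a ≠ e := by
        intro h
        subst h
        exact hh rfl
      by_cases hr : r = a
      · subst hr
        exact n12 (hH [r] [r, b] x2 x1 ⟨[b], rfl⟩ hq h1).symm
      · have hre : r = e := by
          revert hr hh'
          cases r <;> cases e <;> cases a <;> decide
        subst hre
        exact n23 (hH [r] [r, f, g] x2 x3 ⟨[f, g], rfl⟩ hq h3)

/-- There is an admissible function `K` which is not the complexity function of any conditional
algorithm that is prefix-free or prefix-stable. -/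
theorem result : ∃ K : Str → Str → ℕ, Admissible K ∧
    ∀ U : Str → Str → Part Str, IsAlgorithm U → (PrefixFree U ∨ PrefixStable U) →
      ¬ IsComplexityOf K U := by
  classical
  refine ⟨K, K_admissible, ?_⟩
  intro U hU hcase hK
  -- comparable programs have the same output
  have hH : ∀ y p p' x x' : Str, p <+: p' → x ∈ U p y → x' ∈ U p' y → x = x' := by
    intro y p p' x x' hpp hx hx'
    rcases hcase with h | h
    · by_cases e : p = p'
      · subst e
        exact Part.mem_unique hx hx'
      · exact absurd ⟨Part.dom_iff_mem.2 ⟨x, hx⟩, Part.dom_iff_mem.2 ⟨x', hx'⟩⟩ (h y p p' hpp e)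
    · exact Part.mem_unique (h y p p' x hpp hx) hx'
  obtain ⟨c, hc⟩ := exists_code.1 hU
  let y : Str := List.replicate (Encodable.encode c) true
  have hy : Denumerable.ofNat Code y.length = c := by simp [y]
  have hev : ∀ p x : Str, x ∈ U p y ↔ Encodable.encode x ∈ eval c (Encodable.encode (p, y)) := by
    intro p x
    rw [hc]
    simp only [Encodable.encodek, Part.coe_some, Part.bind_some, Part.mem_map_iff]
    constructor
    · intro h
      exact ⟨x, h, rfl⟩
    · rintro ⟨x', hx', he⟩
      rw [← Encodable.encode_injective he]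
      exact hx'
  have hT : ∀ (s : ℕ) (p x : Str), Tst s y p x → x ∈ U p y := by
    intro s p x h
    rw [hev]
    unfold Tst at h
    rw [hy] at h
    exact evaln_sound (show Encodable.encode x ∈ evaln s c _ from h)
  have hT' : ∀ p x : Str, x ∈ U p y → ∃ s, Tst s y p x := by
    intro p x h
    rw [hev] at h
    obtain ⟨s, hs⟩ := evaln_complete.1 h
    refine ⟨s, ?_⟩
    unfold Tst
    rw [hy]
    exact hs
  have h12 : x1 ≠ x2 := by decide
  have h13 : x1 ≠ x3 := by decide
  have h23 : x2 ≠ x3 := by decide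
  have k1 : K x1 y = if ∃ s, Ch1 y s then 1 else 2 := by unfold K; rw [if_pos rfl]
  have k2 : K x2 y = if ∃ s, Ch2 y s then 1 else 2 := by
    unfold K; rw [if_neg h12.symm, if_pos rfl]
  have k3 : K x3 y = 3 := by unfold K; rw [if_neg h13.symm, if_neg h23.symm, if_pos rfl]
  by_cases htr : ∃ s, Trig s y
  · -- the first stage
    obtain ⟨s, hs, hmin⟩ : ∃ s, Trig (s + 1) y ∧ ¬ Trig s y := by
      have h1 := Nat.find_spec htr
      have h0 : Nat.find htr ≠ 0 := by
        intro h
        rw [h] at h1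
        exact Trig_zero y h1
      obtain ⟨s, hs⟩ := Nat.exists_eq_succ_of_ne_zero h0
      refine ⟨s, by rw [hs] at h1; exact h1, ?_⟩
      apply Nat.find_min htr
      omega
    by_cases htr' : Trig' (s + 1) y
    · have hch : ∃ s, Ch1 y s := ⟨s, ⟨hs, hmin⟩, htr'⟩
      obtain ⟨t, ht, ⟨⟨t1, t2⟩, t3⟩, hh⟩ := htr'
      obtain ⟨l1, l2, l3⟩ := of_mem_triples ht
      obtain ⟨q, hq, lq⟩ := (hK x1 y).1
      rw [k1, if_pos hch] at lq
      exact (no_program (H := fun p x => x ∈ U p y) (hH y) l1 l2 l3 (hT _ _ _ t1) (hT _ _ _ t2)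
        (hT _ _ _ t3) lq).1 hh hq
    · have hch : ∃ s, Ch2 y s := ⟨s, ⟨hs, hmin⟩, htr'⟩
      obtain ⟨t, ht, ⟨t1, t2⟩, t3⟩ := hs
      obtain ⟨l1, l2, l3⟩ := of_mem_triples ht
      obtain ⟨q, hq, lq⟩ := (hK x2 y).1
      rw [k2, if_pos hch] at lq
      have hh : t.1.head? ≠ t.2.2.head? := by
        intro hh
        exact htr' ⟨t, ht, ⟨⟨t1, t2⟩, t3⟩, hh⟩
      exact (no_program (H := fun p x => x ∈ U p y) (hH y) l1 l2 l3 (hT _ _ _ t1) (hT _ _ _ t2)
        (hT _ _ _ t3) lq).2 hh hq
  · -- no triple
    have hch1 : ¬ ∃ s, Ch1 y s := by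
      rintro ⟨s, hs⟩
      exact htr ⟨_, hs.1.1⟩
    have hch2 : ¬ ∃ s, Ch2 y s := by
      rintro ⟨s, hs⟩
      exact htr ⟨_, hs.1.1⟩
    rw [if_neg hch1] at k1
    rw [if_neg hch2] at k2
    obtain ⟨p1, hp1, l1⟩ := (hK x1 y).1
    obtain ⟨p2, hp2, l2⟩ := (hK x2 y).1
    obtain ⟨p3, hp3, l3⟩ := (hK x3 y).1
    rw [k1] at l1
    rw [k2] at l2
    rw [k3] at l3
    obtain ⟨s1, hs1⟩ := hT' _ _ hp1
    obtain ⟨s2, hs2⟩ := hT' _ _ hp2
    obtain ⟨s3, hs3⟩ := hT' _ _ hp3
    apply htr
    refine ⟨max s1 (max s2 s3), (p1, (p2, p3)), mem_triples l1 l2 l3, ⟨?_, ?_⟩, ?_⟩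
    · exact Tst_mono (le_max_left _ _) hs1
    · exact Tst_mono (le_trans (le_max_left _ _) (le_max_right _ _)) hs2
    · exact Tst_mono (le_trans (le_max_right _ _) (le_max_right _ _)) hs3

end Pool.Agent.Results.MP_6b7d8e_lc.NotRealisable
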